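import Pool.Agent.J4H16.DV.Stm2

/-!
# Project DV of helper16: (LOW), the circles

`f = - y + (M / 14) x q(r² / R²)`, `g = x + (M / 14) y q(r² / R²)`: every zero `t` of `q - 7 s / M` gives the closed
orbit `r = R √t` of `X - (s / 2) p`.
-/

open Set MeasureTheory Topology Filter
open scoped ENNReal NNReal

namespace Pool.Agent.J4H6.DV

open Pool.Agent.TH525.AG Pool.Agent.J4H16.DV

/-- `r² / R²` -/
noncomputable def tt (R : ℝ) : MvPolynomial (Fin 2) ℝ :=
  MvPolynomial.C ((R ^ 2)⁻¹) * (MvPolynomial.X 0 ^ 2 + MvPolynomial.X 1 ^ 2)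

/-- `(M / 14) q(r² / R²)` -/
noncomputable def qq (M R : ℝ) (q : Polynomial ℝ) : MvPolynomial (Fin 2) ℝ :=
  MvPolynomial.C (M / 14) * Polynomial.aeval (tt R) q

theorem tt_eval (R : ℝ) (p : ℝ × ℝ) : ev (tt R) p = (p.1 ^ 2 + p.2 ^ 2) / R ^ 2 := by
  unfold ev tt
  simp
  ring

theorem aeval_eval (R : ℝ) (q : Polynomial ℝ) (p : ℝ × ℝ) :
    ev (Polynomial.aeval (tt R) q) p = q.eval ((p.1 ^ 2 + p.2 ^ 2) / R ^ 2) := by
  have h1 : ev (Polynomial.aeval (tt R) q) p = q.eval (ev (tt R) p) := by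
    unfold ev
    rw [Polynomial.aeval_def, Polynomial.hom_eval₂]
    rw [Polynomial.eval]
    congr 1
    ext x
    simp [MvPolynomial.algebraMap_eq]
  rw [h1, tt_eval]

theorem qq_eval (M R : ℝ) (q : Polynomial ℝ) (p : ℝ × ℝ) :
    ev (qq M R q) p = M / 14 * q.eval ((p.1 ^ 2 + p.2 ^ 2) / R ^ 2) := by
  rw [← aeval_eval]
  unfold ev qq
  simp

theorem tt_deg (R : ℝ) : (tt R).totalDegree ≤ 2 := by
  unfold tt
  refine (MvPolynomial.totalDegree_mul _ _).trans ?_
  rw [MvPolynomial.totalDegree_C, zero_add]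
  refine (MvPolynomial.totalDegree_add _ _).trans (max_le ?_ ?_)
  · rw [MvPolynomial.totalDegree_X_pow]
  · rw [MvPolynomial.totalDegree_X_pow]

theorem qq_deg (M R : ℝ) (q : Polynomial ℝ) (n : ℕ) (hq : q.natDegree ≤ n) :
    (qq M R q).totalDegree ≤ 2 * n := by
  unfold qq
  refine (MvPolynomial.totalDegree_mul _ _).trans ?_
  rw [MvPolynomial.totalDegree_C, zero_add, Polynomial.aeval_eq_sum_range]
  refine (MvPolynomial.totalDegree_finsetSum _ _).trans ?_
  refine Finset.sup_le fun i hi => ?_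
  rw [Finset.mem_range] at hi
  refine (MvPolynomial.totalDegree_smul_le _ _).trans ?_
  refine (MvPolynomial.totalDegree_pow _ _).trans ?_
  calc i * (tt R).totalDegree ≤ i * 2 := Nat.mul_le_mul_left _ (tt_deg R)
    _ ≤ 2 * n := by omega

/-- the field -/
noncomputable def fF (M R : ℝ) (q : Polynomial ℝ) : MvPolynomial (Fin 2) ℝ :=
  - MvPolynomial.X 1 + MvPolynomial.X 0 * qq M R q

/-- the field -/
noncomputable def gF (M R : ℝ) (q : Polynomial ℝ) : MvPolynomial (Fin 2) ℝ :=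
  MvPolynomial.X 0 + MvPolynomial.X 1 * qq M R q

theorem fF_eval (M R : ℝ) (q : Polynomial ℝ) (p : ℝ × ℝ) :
    ev (fF M R q) p = - p.2 + p.1 * (M / 14 * q.eval ((p.1 ^ 2 + p.2 ^ 2) / R ^ 2)) := by
  rw [← qq_eval]
  unfold ev fF
  simp

theorem gF_eval (M R : ℝ) (q : Polynomial ℝ) (p : ℝ × ℝ) :
    ev (gF M R q) p = p.1 + p.2 * (M / 14 * q.eval ((p.1 ^ 2 + p.2 ^ 2) / R ^ 2)) := by
  rw [← qq_eval]
  unfold ev gF
  simp

theorem pd_tt0 (R : ℝ) : MvPolynomial.pderiv 0 (tt R) =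
    MvPolynomial.C ((R ^ 2)⁻¹) * (2 * MvPolynomial.X 0) := by
  unfold tt
  rw [Derivation.leibniz, map_add, Derivation.leibniz_pow, Derivation.leibniz_pow]
  simp [MvPolynomial.pderiv_X]

theorem pd_tt1 (R : ℝ) : MvPolynomial.pderiv 1 (tt R) =
    MvPolynomial.C ((R ^ 2)⁻¹) * (2 * MvPolynomial.X 1) := by
  unfold tt
  rw [Derivation.leibniz, map_add, Derivation.leibniz_pow, Derivation.leibniz_pow]
  simp [MvPolynomial.pderiv_X]

theorem pd_qq (M R : ℝ) (q : Polynomial ℝ) (i : Fin 2) : MvPolynomial.pderiv i (qq M R q) =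
    MvPolynomial.C (M / 14) *
      (Polynomial.aeval (tt R) (Polynomial.derivative q) * MvPolynomial.pderiv i (tt R)) := by
  unfold qq
  rw [Derivation.leibniz, Derivation.map_aeval]
  simp

theorem dv_eval (M R : ℝ) (q : Polynomial ℝ) (p : ℝ × ℝ) :
    ev (dv (fF M R q) (gF M R q)) p = M / 7 * (q.eval ((p.1 ^ 2 + p.2 ^ 2) / R ^ 2) +
      (p.1 ^ 2 + p.2 ^ 2) / R ^ 2 *
        (Polynomial.derivative q).eval ((p.1 ^ 2 + p.2 ^ 2) / R ^ 2)) := by
  have h1 : dv (fF M R q) (gF M R q) = 2 * qq M R q + MvPolynomial.C (M / 14) *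
      (Polynomial.aeval (tt R) (Polynomial.derivative q) *
        (MvPolynomial.C ((R ^ 2)⁻¹) * 2 * (MvPolynomial.X 0 ^ 2 + MvPolynomial.X 1 ^ 2))) := by
    unfold dv fF gF
    rw [map_add, map_add, map_neg, Derivation.leibniz, Derivation.leibniz, pd_qq, pd_qq, pd_tt0,
      pd_tt1]
    simp only [MvPolynomial.pderiv_X_self, smul_eq_mul]
    rw [MvPolynomial.pderiv_X_of_ne (by decide : (1 : Fin 2) ≠ 0),
      MvPolynomial.pderiv_X_of_ne (by decide : (0 : Fin 2) ≠ 1)]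
    ring
  have h2 := aeval_eval R (Polynomial.derivative q) p
  have h3 := qq_eval M R q p
  rw [h1]
  unfold ev at h2 h3 ⊢
  simp only [map_add, map_mul, MvPolynomial.eval_C, map_pow, MvPolynomial.eval_X]
  rw [h2, h3]
  simp
  ring

/-- a circle -/
def circ (r : ℝ) : Set (ℝ × ℝ) := range fun t : ℝ => ((r * Real.cos t, r * Real.sin t) : ℝ × ℝ)

theorem sq_circ (r t : ℝ) : (r * Real.cos t) ^ 2 + (r * Real.sin t) ^ 2 = r ^ 2 := by
  have := Real.sin_sq_add_cos_sq t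
  calc _ = r ^ 2 * (Real.sin t ^ 2 + Real.cos t ^ 2) := by ring
    _ = _ := by rw [this, mul_one]

theorem circ_mem {r : ℝ} (hr : 0 < r) {X : ℝ × ℝ → ℝ × ℝ} {A : Set (ℝ × ℝ)}
    (hX : ∀ t : ℝ, X (r * Real.cos t, r * Real.sin t) = (-(r * Real.sin t), r * Real.cos t))
    (hA : ∀ t : ℝ, ((r * Real.cos t, r * Real.sin t) : ℝ × ℝ) ∈ A) :
    circ r ∈ closedOrbitsIn X A := by
  refine ⟨⟨fun t => (r * Real.cos t, r * Real.sin t), 2 * Real.pi, Real.two_pi_pos,
    fun t => ?_, fun t => ?_, ⟨0, Real.pi, ?_⟩, rfl⟩, ?_⟩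
  · rw [hX]
    refine (((Real.hasDerivAt_cos t).const_mul r).prodMk
      ((Real.hasDerivAt_sin t).const_mul r)).congr_deriv ?_
    ext
    · simp
    · simp
  · simp only [Real.cos_add_two_pi, Real.sin_add_two_pi]
  · intro h
    have := congrArg Prod.fst h
    simp only [Real.cos_zero, Real.cos_pi] at this
    linarith
  · rintro _ ⟨t, rfl⟩
    exact hA t

theorem circ_inj {r r' : ℝ} (hr : 0 < r) (hr' : 0 < r') (h : circ r = circ r') : r = r' := by
  have h1 : ((r * Real.cos 0, r * Real.sin 0) : ℝ × ℝ) ∈ circ r' := by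
    rw [← h]; exact ⟨0, rfl⟩
  obtain ⟨t, ht⟩ := h1
  have h2 := congrArg (fun p : ℝ × ℝ => p.1 ^ 2 + p.2 ^ 2) ht
  simp only [sq_circ] at h2
  exact (sq_eq_sq₀ hr.le hr'.le).1 h2.symm

/-- the lower bound -/
theorem t_LOW : S_LQ → S_LOW := by
  intro hLQ m M R hM hR
  obtain ⟨q, hqn, hq, hqv⟩ := hLQ m
  have hR2 : 0 < R ^ 2 := by positivity
  have hang : ∀ p, ang (fF M R q) (gF M R q) p = p.1 ^ 2 + p.2 ^ 2 := by
    intro p; unfold ang; rw [fF_eval, gF_eval]; ring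
  have hrad : ∀ p, rad (fF M R q) (gF M R q) p = (p.1 ^ 2 + p.2 ^ 2) *
      (M / 14 * q.eval ((p.1 ^ 2 + p.2 ^ 2) / R ^ 2)) := by
    intro p; unfold rad; rw [fF_eval, gF_eval]; ring
  have ht : ∀ p : ℝ × ℝ, p.1 ^ 2 + p.2 ^ 2 ≤ R ^ 2 → (p.1 ^ 2 + p.2 ^ 2) / R ^ 2 ∈ Icc (0:ℝ) 1 := by
    intro p hp
    refine ⟨by positivity, ?_⟩
    rw [div_le_one hR2]
    exact hp
  refine ⟨fF M R q, gF M R q, ?_, ?_, ?_, ?_, ?_⟩
  · unfold fF
    refine (MvPolynomial.totalDegree_add _ _).trans (max_le ?_ ?_)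
    · rw [MvPolynomial.totalDegree_neg, MvPolynomial.totalDegree_X]; omega
    · refine (MvPolynomial.totalDegree_mul _ _).trans ?_
      rw [MvPolynomial.totalDegree_X]
      have := qq_deg M R q (16 ^ m) hqn
      omega
  · unfold gF
    refine (MvPolynomial.totalDegree_add _ _).trans (max_le ?_ ?_)
    · rw [MvPolynomial.totalDegree_X]; omega
    · refine (MvPolynomial.totalDegree_mul _ _).trans ?_
      rw [MvPolynomial.totalDegree_X]
      have := qq_deg M R q (16 ^ m) hqn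
      omega
  · intro p hp
    obtain ⟨hp0, hpR⟩ := hp
    rw [hang, hrad]
    refine ⟨hp0, ?_⟩
    obtain ⟨h1, h2, -⟩ := hq _ (ht p hpR)
    set Q := q.eval ((p.1 ^ 2 + p.2 ^ 2) / R ^ 2)
    set u := p.1 ^ 2 + p.2 ^ 2
    rw [abs_of_nonneg (by positivity)]
    have h3 : u * (M / 14 * Q) ≤ u * (M / 14 * 1) := by gcongr
    nlinarith [mul_pos hM hp0]
  · intro p hp
    rw [dv_eval]
    obtain ⟨-, -, h3⟩ := hq _ (ht p hp)
    rw [abs_mul, abs_of_pos (by positivity)]
    calc M / 7 * _ ≤ M / 7 * 7 := by gcongr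
      _ = M := by ring
  · intro s hs
    obtain ⟨hs1, hs2⟩ := hs
    obtain ⟨S, hSm, hS⟩ := hqv (7 * s / M) ⟨by
      rw [lt_div_iff₀ hM]; linarith, by
      rw [div_lt_iff₀ hM]; linarith⟩
    have hr0 : ∀ t ∈ S, 0 < R * Real.sqrt t := fun t htS =>
      mul_pos hR (Real.sqrt_pos.2 (hS t htS).1.1)
    have hrr : ∀ t ∈ S, (R * Real.sqrt t) ^ 2 = R ^ 2 * t := by
      intro t htS
      rw [mul_pow, Real.sq_sqrt (hS t htS).1.1.le]
    have hinj : InjOn (fun t : ℝ => circ (R * Real.sqrt t)) (S : Set ℝ) := by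
      intro t htS t' htS' h
      rw [Finset.mem_coe] at htS htS'
      have h1 := circ_inj (hr0 t htS) (hr0 t' htS') h
      have h2 := hrr t htS
      rw [h1, hrr t' htS'] at h2
      exact (mul_left_cancel₀ hR2.ne' h2).symm
    have hsub : (fun t : ℝ => circ (R * Real.sqrt t)) '' (S : Set ℝ) ⊆
        closedOrbitsIn (fam (fF M R q) (gF M R q) s) (pd R) := by
      rintro _ ⟨t, htS, rfl⟩
      rw [Finset.mem_coe] at htS
      have h1 : (R * Real.sqrt t) ^ 2 / R ^ 2 = t := by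
        rw [hrr t htS]
        field_simp
      refine circ_mem (hr0 t htS) (fun θ => ?_) (fun θ => ?_)
      · unfold fam
        rw [fF_eval, gF_eval]
        simp only
        rw [sq_circ, h1, (hS t htS).2]
        have h2 : M / 14 * (7 * s / M) = s / 2 := by
          field_simp
          ring
        rw [h2]
        ext
        · simp only
          ring
        · simp only
          ring
      · refine ⟨?_, ?_⟩
        · simp only
          rw [sq_circ]
          exact pow_pos (hr0 t htS) 2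
        · simp only
          rw [sq_circ, hrr t htS]
          have := (hS t htS).1.2
          nlinarith
    calc (m : ℕ∞) ≤ (S.card : ℕ∞) := by exact_mod_cast hSm
      _ = (S : Set ℝ).encard := (Set.encard_coe_eq_coe_finsetCard S).symm
      _ = ((fun t : ℝ => circ (R * Real.sqrt t)) '' (S : Set ℝ)).encard := hinj.encard_image.symm
      _ ≤ _ := encard_le_encard hsub

end Pool.Agent.J4H6.DV
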